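import Pool.Agent.Helper66_D2.Stmts
import Pool.Agent.Helper75_PP.Corner
import Pool.Agent.Helper20_PP.Fun

/-!
# Squad PP, part D2, module UMX: extension by zero
-/

open scoped BigOperators

set_option linter.unusedSectionVars false

noncomputable section

namespace Pool.Agent.PP.CD2.H56

open Pool.Agent.Helper51_AWC Pool.Agent.Helper79_WRA Pool.Agent.PP

variable {F : Type} [Field F] {G : Type} [Group G] [Finite G] {C : Subgroup G}

theorem ext_in (a : C → F) {x : G} (hx : x ∈ C) : extF C a x = a ⟨x, hx⟩ := by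
  unfold extF
  rw [dif_pos hx]

theorem ext_coe (a : C → F) (x : C) : extF C a (x : G) = a x := ext_in a x.2

theorem ext_out (a : C → F) {x : G} (hx : x ∉ C) : extF C a x = 0 := by
  unfold extF
  rw [dif_neg hx]

theorem ext_sp (a : C → F) : SpF C (extF C a) := fun _ hx => ext_out a hx

theorem ext_res {a : G → F} (ha : SpF C a) : extF C (fun t : C => a t) = a := by
  funext x
  by_cases hx : x ∈ C
  · rw [ext_in _ hx]
  · rw [ext_out _ hx, ha x hx]

theorem ext_eq {a : C → F} {a' : G → F} (ha : SpF C a') (h : ∀ t : C, a' t = a t) :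
    extF C a = a' := by
  funext x
  by_cases hx : x ∈ C
  · rw [ext_in _ hx]
    exact (h ⟨x, hx⟩).symm
  · rw [ext_out _ hx, ha x hx]

theorem ext_mul (a b : C → F) : extF C (mulF a b) = mulF (extF C a) (extF C b) := by
  apply ext_eq (H75.mulF_supp C (ext_sp a) (ext_sp b))
  intro t
  have h1 := congrFun (H75.mulF_res C (extF C b) (ext_sp a)) t
  have h2 : (fun t : C => extF C a t) = a := funext fun t => ext_coe a t
  have h3 : (fun t : C => extF C b t) = b := funext fun t => ext_coe b t
  rw [h2, h3] at h1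
  exact h1

theorem ext_zero : extF C (0 : C → F) = 0 := by
  funext x
  by_cases hx : x ∈ C
  · rw [ext_in _ hx]
    rfl
  · rw [ext_out _ hx]
    rfl

theorem ext_add (a b : C → F) : extF C (a + b) = extF C a + extF C b := by
  funext x
  by_cases hx : x ∈ C
  · rw [Pi.add_apply, ext_in _ hx, ext_in _ hx, ext_in _ hx]
    rfl
  · rw [Pi.add_apply, ext_out _ hx, ext_out _ hx, ext_out _ hx, add_zero]

theorem ext_smul (c : F) (a : C → F) : extF C (c • a) = c • extF C a := by
  funext x
  by_cases hx : x ∈ C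
  · rw [Pi.smul_apply, ext_in _ hx, ext_in _ hx]
    rfl
  · rw [Pi.smul_apply, ext_out _ hx, ext_out _ hx, smul_zero]

theorem ext_sum {ι : Type} (s : Finset ι) (a : ι → C → F) :
    extF C (∑ i ∈ s, a i) = ∑ i ∈ s, extF C (a i) := by
  classical
  induction s using Finset.induction_on with
  | empty => rw [Finset.sum_empty, Finset.sum_empty, ext_zero]
  | insert i s hi ih => rw [Finset.sum_insert hi, Finset.sum_insert hi, ext_add, ih]

theorem ext_pw (w : C → F) (s : ℕ) (a : C → F) :
    extF C (pwF w s a) = pwF (extF C w) s (extF C a) := by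
  unfold pwF
  induction s with
  | zero => rfl
  | succ s ih => rw [Function.iterate_succ_apply', Function.iterate_succ_apply', ext_mul, ih]

theorem ext_inj {a b : C → F} (h : extF C a = extF C b) : a = b := by
  funext t
  have := congrFun h (t : G)
  rwa [ext_coe, ext_coe] at this

theorem ext_cm {a : C → F} (ha : CmF (⊤ : Subgroup C) a) : CmF C (extF C a) := by
  intro c hc x
  by_cases hx : x ∈ C
  · have h1 : c * x * c⁻¹ ∈ C := C.mul_mem (C.mul_mem hc hx) (C.inv_mem hc)
    rw [ext_in _ hx, ext_in _ h1]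
    exact ha ⟨c, hc⟩ (Subgroup.mem_top _) ⟨x, hx⟩
  · have h1 : c * x * c⁻¹ ∉ C := by
      intro h
      apply hx
      have h2 := C.mul_mem (C.mul_mem (C.inv_mem hc) h) hc
      have h3 : c⁻¹ * (c * x * c⁻¹) * c = x := by group
      rwa [h3] at h2
    rw [ext_out _ hx, ext_out _ h1]

/-- UMX -/
theorem umx : UmxStmt := by
  intro F _ G _ _ C b w i q h
  refine ⟨ext_sp _, ext_sp _, ext_sp _, ext_cm h.cb, ext_cm h.cw, ?_, ?_, ?_, ?_, ?_, ?_, ?_, ?_⟩
  · rw [← ext_mul, h.bb]
  · rw [← ext_mul, h.bw]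
  · rw [← ext_mul, h.ii]
  · rw [← ext_mul, h.bi]
  · rw [← ext_pw, h.nil, ext_zero]
  · rw [← ext_pw]
    intro h1
    apply h.nz
    apply ext_inj
    rw [h1, ext_zero]
  · intro a ha
    obtain ⟨α, hα⟩ := h.loc (fun t : C => a t) (fun x hx => absurd (Subgroup.mem_top x) hx)
    refine ⟨α, ?_⟩
    have h1 := congrArg (extF C) hα
    rw [ext_mul, ext_mul, ext_res ha, ext_sum] at h1
    rw [h1]
    apply Finset.sum_congr rfl
    intro s _
    rw [ext_smul, ext_pw]
  · obtain ⟨m, x, y, _, hs⟩ := h.full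
    refine ⟨m, fun k => extF C (x k), fun k => extF C (y k), fun k => ⟨ext_sp _, ext_sp _⟩, ?_⟩
    rw [← hs, ext_sum]
    apply Finset.sum_congr rfl
    intro k _
    rw [ext_mul, ext_mul]

end Pool.Agent.PP.CD2.H56
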