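import Pool.Agent.Helper66_D2.Tool
import Pool.Agent.Helper91_D1.Rsd
import Pool.Agent.Helper56_D2.Umx

/-!
# Squad PP, part D2, module CLC: the element `w`
-/

open scoped BigOperators

set_option linter.unusedSectionVars false

noncomputable section

namespace Pool.Agent.PP.CD2.H56

open Pool.Agent.Helper51_AWC Pool.Agent.Helper79_WRA Pool.Agent.PP Pool.Agent.PP.H20
  Pool.Agent.PP.CD2.H66

/-- a cyclic group of order `ℓ ^ (n + 1)` has a generator whose power is a given element of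
order `ℓ` -/
theorem gen_pow {ℓ : ℕ} [hℓ : Fact ℓ.Prime] {G : Type} [Group G] [Finite G] {n : ℕ}
    {Q : Subgroup G} (hQ : IsCyclic Q) (hc : Nat.card Q = ℓ ^ (n + 1)) {y₁ : G} (hy : y₁ ∈ Q)
    (ho : orderOf y₁ = ℓ) :
    ∃ y : G, Subgroup.zpowers y = Q ∧ orderOf y = ℓ ^ (n + 1) ∧ y ^ (ℓ ^ n) = y₁ := by
  have hp : 0 < ℓ := hℓ.out.pos
  obtain ⟨g₀, hg₀⟩ := hQ.exists_generator
  have hg : Subgroup.zpowers (g₀ : G) = Q := by
    apply le_antisymm
    · rw [Subgroup.zpowers_le]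
      exact g₀.2
    · intro x hx
      obtain ⟨k, hk⟩ := Subgroup.mem_zpowers_iff.1 (hg₀ ⟨x, hx⟩)
      rw [Subgroup.mem_zpowers_iff]
      refine ⟨k, ?_⟩
      have := congrArg Subtype.val hk
      simpa using this
  set g : G := (g₀ : G) with hgdef
  have hog : orderOf g = ℓ ^ (n + 1) := by
    rw [← Nat.card_zpowers, hg, hc]
  obtain ⟨a, ha⟩ : ∃ a : ℕ, g ^ a = y₁ := by
    rw [← hg, ← mem_powers_iff_mem_zpowers] at hy
    exact hy
  have h1 : orderOf y₁ = ℓ ^ (n + 1) / Nat.gcd (ℓ ^ (n + 1)) a := by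
    rw [← ha, orderOf_pow, hog]
  have hd : Nat.gcd (ℓ ^ (n + 1)) a ∣ ℓ ^ (n + 1) := Nat.gcd_dvd_left _ _
  have h2 : Nat.gcd (ℓ ^ (n + 1)) a = ℓ ^ n := by
    have h3 : Nat.gcd (ℓ ^ (n + 1)) a * ℓ = ℓ ^ (n + 1) := by
      have h4 := Nat.mul_div_cancel' hd
      rw [← h1, ho] at h4
      exact h4
    rw [pow_succ] at h3
    exact Nat.eq_of_mul_eq_mul_right hp h3
  obtain ⟨a', ha'⟩ : ℓ ^ n ∣ a := h2 ▸ Nat.gcd_dvd_right _ _
  have h5 : Nat.gcd ℓ a' = 1 := by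
    rw [ha', pow_succ, Nat.gcd_mul_left] at h2
    have h6 : 0 < ℓ ^ n := pow_pos hp n
    exact Nat.eq_of_mul_eq_mul_left h6 (by rw [h2, mul_one])
  have h7 : Nat.gcd (ℓ ^ (n + 1)) a' = 1 := Nat.Coprime.pow_left _ h5
  have h8 : orderOf (g ^ a') = ℓ ^ (n + 1) := by
    rw [orderOf_pow, hog, h7, Nat.div_one]
  refine ⟨g ^ a', ?_, h8, ?_⟩
  · apply Subgroup.eq_of_le_of_card_ge
    · rw [← hg, Subgroup.zpowers_le]
      exact Subgroup.pow_mem _ (Subgroup.mem_zpowers g) a'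
    · rw [hc, Nat.card_zpowers, h8]
  · rw [← pow_mul, mul_comm, ← ha', ha]

theorem pw_sum {F : Type} [Field F] {G : Type} [Group G] [Finite G] {m : ℕ} (w : G → F) (s : ℕ)
    (e : Fin m → G → F) : pwF w s (∑ t, e t) = ∑ t, pwF w s (e t) := by
  apply toMA_injective
  rw [toMA_pwF, toMA_sum, toMA_sum, Finset.mul_sum]
  exact Finset.sum_congr rfl fun t _ => (toMA_pwF _ _ _).symm

/-- the element for one block -/
theorem one_block (hstr : StrStmt) (hcl2 : Cl2Stmt) {ℓ : ℕ} [Fact ℓ.Prime] {F : Type} [Field F]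
    (hF : GoodF ℓ F) {G : Type} [Group G] [Finite G] {n : ℕ} {N P : Subgroup G} {y₁ : G}
    {b : G → F} (h : ClS ℓ n N P y₁ b) {e : G → F} (he : BlC (N ⊓ CY y₁) (bY y₁ b) e) :
    ∃ w i : G → F, UMF (N ⊓ CY y₁) e w i (ℓ ^ (n + 1)) ∧
      pwF w (ℓ ^ n) e = fun g => e (y₁⁻¹ * g) - e g := by
  obtain ⟨k, hk, hprj, hbr⟩ := hcl2 ℓ F hF G n N P y₁ b h e he
  have hN : N.Normal := h.normal
  have hcycP : IsCyclic P := h.cyc
  have hcyc : IsCyclic (conjS k P) :=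
    isCyclic_of_surjective (conjSEquiv k P) (conjSEquiv k P).surjective
  have hcard : Nat.card (conjS k P) = ℓ ^ (n + 1) := by rw [card_conjS, h.card]
  have hmem : y₁ ∈ conjS k P := by
    rw [mem_conjS]
    have h1 : k⁻¹ * y₁ * k ∈ Subgroup.zpowers y₁ := by
      have := (Subgroup.mem_normalizer_iff.1 (inv_mem hk.2) y₁).1 (Subgroup.mem_zpowers y₁)
      rwa [inv_inv] at this
    have h2 : Subgroup.zpowers y₁ ≤ P := by
      rw [Subgroup.zpowers_le]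
      exact h.mem
    exact h2 h1
  obtain ⟨y, hyQ, hyo, hyp⟩ := gen_pow hcyc hcard hmem h.ord
  have hQC : conjS k P ≤ N ⊓ CY y₁ := by
    intro x hx
    refine ⟨?_, ?_⟩
    · have h1 := h.le (mem_conjS.1 hx)
      have h2 := hN.conj_mem _ h1 k
      have h3 : k * (k⁻¹ * x * k) * k⁻¹ = x := by group
      rwa [h3] at h2
    · rw [← hyQ] at hx
      refine Subgroup.mem_centralizer_iff.2 fun z hz => ?_
      have hz' : z ∈ Subgroup.zpowers y := by
        rw [hyQ]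
        exact (Subgroup.zpowers_le.2 hmem) hz
      obtain ⟨i, rfl⟩ := Subgroup.mem_zpowers_iff.1 hx
      obtain ⟨j, rfl⟩ := Subgroup.mem_zpowers_iff.1 hz'
      rw [← zpow_add, ← zpow_add, add_comm]
  have hyC : y ∈ N ⊓ CY y₁ := hQC (hyQ ▸ Subgroup.mem_zpowers y)
  have hy₁C : y₁ ∈ N ⊓ CY y₁ := hQC hmem
  have hst : StS ℓ n ((conjS k P).subgroupOf (N ⊓ CY y₁)) (⟨y, hyC⟩ : (N ⊓ CY y₁ : Subgroup G))
      (fun t : (N ⊓ CY y₁ : Subgroup G) => e t) := by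
    refine ⟨?_, ?_, ?_, he.blk, ?_, ?_⟩
    · ext x
      rw [Subgroup.mem_subgroupOf, ← hyQ, Subgroup.mem_zpowers_iff, Subgroup.mem_zpowers_iff]
      constructor
      · rintro ⟨i, rfl⟩
        exact ⟨i, by simp⟩
      · rintro ⟨i, hi⟩
        refine ⟨i, Subtype.ext ?_⟩
        rw [← hi]
        simp
    · rw [← hyo]
      exact (orderOf_injective (N ⊓ CY y₁ : Subgroup G).subtype Subtype.val_injective
        (⟨y, hyC⟩ : (N ⊓ CY y₁ : Subgroup G))).symm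
    · rw [Subgroup.mem_center_iff]
      intro g
      apply Subtype.ext
      have h1 := Subgroup.mem_centralizer_iff.1 g.2.2 y₁ (Subgroup.mem_zpowers y₁)
      have h2 : (((⟨y, hyC⟩ : (N ⊓ CY y₁ : Subgroup G)) ^ (ℓ ^ n) :
          (N ⊓ CY y₁ : Subgroup G)) : G) = y₁ := (Subgroup.coe_pow _ _ _).trans hyp
      rw [Subgroup.coe_mul, Subgroup.coe_mul, h2]
      exact h1.symm
    · have h1 := D1.H91.prjB_restr (N := N ⊓ CY y₁) (le_refl _) hQC e hprj
      rwa [Subgroup.subgroupOf_self] at h1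
    · rw [D1.H91.br_restr hQC]
      intro h1
      apply hbr
      funext x
      by_cases hx : x ∈ N ⊓ CY y₁
      · exact congrFun h1 ⟨x, hx⟩
      · classical
        unfold br
        split_ifs
        · exact he.supp x hx
        · rfl
  obtain ⟨w, i, hu, hp⟩ := hstr ℓ F hF _ n _ _ _ hst
  refine ⟨extF (N ⊓ CY y₁) w, extF (N ⊓ CY y₁) i, ?_, ?_⟩
  · have h1 := umx F G (N ⊓ CY y₁) _ w i (ℓ ^ (n + 1)) hu
    rwa [ext_res he.supp] at h1
  · have h1 := congrArg (extF (N ⊓ CY y₁)) hp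
    rw [ext_pw, ext_res he.supp] at h1
    rw [h1]
    apply ext_eq
    · intro x hx
      have h2 : y₁⁻¹ * x ∉ N ⊓ CY y₁ := by
        intro h3
        apply hx
        have := mul_mem hy₁C h3
        rwa [mul_inv_cancel_left] at this
      change e (y₁⁻¹ * x) - e x = 0
      rw [he.supp x hx, he.supp _ h2, sub_zero]
    · intro t
      have h2 : ((((⟨y, hyC⟩ : (N ⊓ CY y₁ : Subgroup G)) ^ (ℓ ^ n))⁻¹ * t :
          (N ⊓ CY y₁ : Subgroup G)) : G) = y₁⁻¹ * t := by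
        rw [Subgroup.coe_mul, Subgroup.coe_inv, Subgroup.coe_pow]
        change (y ^ (ℓ ^ n))⁻¹ * (t : G) = _
        rw [hyp]
      rw [h2]

/-- CLC -/
theorem clc (hstr : StrStmt) (hcl2 : Cl2Stmt) (hbld : BldStmt) : ClcStmt := by
  intro ℓ hℓ F _ hF G _ _ n N P y₁ b h
  have hpg : IsPGroup ℓ (Subgroup.zpowers y₁) :=
    IsPGroup.of_card (n := 1) (by rw [Nat.card_zpowers, h.ord, pow_one])
  have hbcl : IsCl b := h.idem.1
  have hle : N ⊓ CY y₁ ≤ ⊤ ⊓ NY y₁ :=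
    fun x hx => Subgroup.mem_inf.2 ⟨Subgroup.mem_top x, CY_le_NY y₁ hx.2⟩
  have hcm : CmF (N ⊓ CY y₁) (bY y₁ b) := CmF.mono hle (bY_cm (cmF_of_cl hbcl ⊤))
  have hbb : mulF (bY y₁ b) (bY y₁ b) = bY y₁ b := by
    rw [← bY_mulF hF hpg (cmF_of_cl hbcl _) (cmF_of_cl hbcl _), h.idem.2]
  obtain ⟨m, e, he, horth, hsum⟩ := hbld ℓ F hF G (N ⊓ CY y₁) (bY y₁ b) (bY_sp h.supp) hcm hbb
  choose w i hu hp using fun t => one_block hstr hcl2 hF h (he t)
  have hew : ∀ t s, t ≠ s → mulF (e t) (w s) = 0 := by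
    intro t s hts
    rw [← (hu s).bw, ← mulF_assoc, horth t s hts, zero_mulF]
  have hW : ∀ t, mulF (e t) (∑ s, w s) = w t := by
    intro t
    rw [mulF_sum, Finset.sum_eq_single t (fun s _ hs => hew t s (Ne.symm hs))
      (fun h => absurd (Finset.mem_univ _) h)]
    exact (hu t).bw
  have hWs : SpF (N ⊓ CY y₁) (∑ s, w s) := SpF.sum fun t _ => (hu t).sw
  refine ⟨∑ s, w s, ⟨m, e, i, ?_, horth, hsum, ?_⟩, ?_⟩
  · intro t
    rw [hW]
    exact hu t
  · rw [← hsum, sum_mulF]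
    exact Finset.sum_congr rfl fun t _ => hW t
  · have h1 : ∀ t, pwF (∑ s, w s) (ℓ ^ n) (e t) = fun g => e t (y₁⁻¹ * g) - e t g := by
      intro t
      have h2 := umf_pw (hu t).bb (hu t).cb hWs (ℓ ^ n)
      rw [hW, hp] at h2
      rw [h2]
      have h3 : mulF (pwF (∑ s, w s) (ℓ ^ n) (e t)) (e t) = pwF (∑ s, w s) (ℓ ^ n) (e t) := by
        apply toMA_injective
        rw [toMA_mulF, toMA_pwF, mul_assoc, ← toMA_mulF, (hu t).bb]
      rw [cm_comm (hu t).cb (hWs.pwF (hu t).sb _), h3]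
    rw [← hsum, pw_sum, Finset.sum_congr rfl fun t _ => h1 t]
    funext g
    rw [Finset.sum_apply, Finset.sum_apply, Finset.sum_apply, Finset.sum_sub_distrib]

end Pool.Agent.PP.CD2.H56
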