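import Pool.Agent.Helper56_D2.Clc

/-!
# Squad PP, part D2, module STR: the structure theorem
-/

open scoped BigOperators

set_option linter.unusedSectionVars false

noncomputable section

namespace Pool.Agent.PP.CD2.H56

open Pool.Agent.Helper51_AWC Pool.Agent.Helper79_WRA Pool.Agent.PP Pool.Agent.PP.H20
  Pool.Agent.PP.CD2.H66

/-- restriction of the situation of the structure theorem to a subgroup -/
theorem sts_restr {ℓ : ℕ} {F : Type} [Field F] {G : Type} [Group G] [Finite G] {n : ℕ}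
    {C Q : Subgroup G} {e : G → F} (hQC : Q ≤ C) {y z : G} (hyQ : Subgroup.zpowers y = Q)
    (hyo : orderOf y = ℓ ^ (n + 1)) (hyz : y ^ (ℓ ^ n) = z) (hC : C ≤ CY z) (he : SpF C e)
    (hblk : IsBlk (fun t : C => e t)) (hprj : PrjB C Q e) (hbr : br Q e ≠ 0) (hyC : y ∈ C) :
    StS ℓ n (Q.subgroupOf C) (⟨y, hyC⟩ : C) (fun t : C => e t) := by
  refine ⟨?_, ?_, ?_, hblk, ?_, ?_⟩
  · ext x
    rw [Subgroup.mem_subgroupOf, ← hyQ, Subgroup.mem_zpowers_iff, Subgroup.mem_zpowers_iff]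
    constructor
    · rintro ⟨i, rfl⟩
      exact ⟨i, by simp⟩
    · rintro ⟨i, hi⟩
      refine ⟨i, Subtype.ext ?_⟩
      rw [← hi]
      simp
  · rw [← hyo]
    exact (orderOf_injective C.subtype Subtype.val_injective (⟨y, hyC⟩ : C)).symm
  · rw [Subgroup.mem_center_iff]
    intro g
    apply Subtype.ext
    have h1 := Subgroup.mem_centralizer_iff.1 (hC g.2) z (Subgroup.mem_zpowers z)
    have h2 : (((⟨y, hyC⟩ : C) ^ (ℓ ^ n) : C) : G) = z := (Subgroup.coe_pow _ _ _).trans hyz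
    rw [Subgroup.coe_mul, Subgroup.coe_mul, h2]
    exact h1.symm
  · have h1 := D1.H91.prjB_restr (N := C) (le_refl _) hQC e hprj
    rwa [Subgroup.subgroupOf_self] at h1
  · rw [D1.H91.br_restr hQC]
    intro h1
    apply hbr
    funext x
    by_cases hx : x ∈ C
    · exact congrFun h1 ⟨x, hx⟩
    · classical
      unfold br
      split_ifs
      · exact he x hx
      · rfl

/-- the result of the structure theorem for a subgroup -/
theorem str_restr {ℓ : ℕ} {F : Type} [Field F] {G : Type} [Group G] [Finite G] {n : ℕ}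
    {C : Subgroup G} {e : G → F} {y z : G} (hyz : y ^ (ℓ ^ n) = z) (he : SpF C e) (hyC : y ∈ C)
    {w i : C → F} (hu : UMF (⊤ : Subgroup C) (fun t : C => e t) w i (ℓ ^ (n + 1)))
    (hp : pwF w (ℓ ^ n) (fun t : C => e t) =
      fun g : C => e (((((⟨y, hyC⟩ : C) ^ (ℓ ^ n))⁻¹ * g : C) : C) : G) - e g) :
    UMF C e (extF C w) (extF C i) (ℓ ^ (n + 1)) ∧
      pwF (extF C w) (ℓ ^ n) e = fun g => e (z⁻¹ * g) - e g := by
  have hzC : z ∈ C := hyz ▸ C.pow_mem hyC _
  refine ⟨?_, ?_⟩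
  · have h1 := umx F G C _ w i (ℓ ^ (n + 1)) hu
    rwa [ext_res he] at h1
  · have h1 := congrArg (extF C) hp
    rw [ext_pw, ext_res he] at h1
    rw [h1]
    apply ext_eq
    · intro x hx
      have h2 : z⁻¹ * x ∉ C := by
        intro h3
        apply hx
        have := mul_mem hzC h3
        rwa [mul_inv_cancel_left] at this
      change e (z⁻¹ * x) - e x = 0
      rw [he x hx, he _ h2, sub_zero]
    · intro t
      have h2 : ((((⟨y, hyC⟩ : C) ^ (ℓ ^ n))⁻¹ * t : C) : G) = z⁻¹ * t := by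
        rw [Subgroup.coe_mul, Subgroup.coe_inv, Subgroup.coe_pow]
        change (y ^ (ℓ ^ n))⁻¹ * (t : G) = _
        rw [hyz]
      rw [h2]

/-- NPJ for the subgroup `⊤` -/
theorem npj_top (npj : NpjStmt) {ℓ : ℕ} [Fact ℓ.Prime] {F : Type} [Field F] (hF : GoodF ℓ F)
    {G : Type} [Group G] [Finite G] {b : G → F} (hb : IsBlk b) {Q : Subgroup G}
    (hQ : IsPGroup ℓ Q) (hQ1 : Q ≠ ⊥) (hbr : br Q b ≠ 0) (k : ℕ)
    (τ : (⊤ : Subgroup G) →* Matrix (Fin k) (Fin k) F) (hτ : IsIrr τ)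
    (hev : ev τ (fun t : (⊤ : Subgroup G) => b t) = 1) (ψ : Matrix (Fin k) (Fin k) F) :
    ∑ᶠ m : (⊤ : Subgroup G), τ m * ψ * τ m⁻¹ ≠ 1 := by
  intro hsum
  refine npj ℓ F hF G b hb Q hQ hQ1 hbr k
    (τ.comp (Subgroup.topEquiv (G := G)).symm.toMonoidHom) ⟨hτ.1, ?_⟩ ?_ ψ ?_
  · rw [← hτ.2]
    congr 1
    ext M
    constructor
    · rintro ⟨x, rfl⟩
      exact ⟨_, rfl⟩
    · rintro ⟨x, rfl⟩
      exact ⟨(x : G), rfl⟩
  · rw [← hev]
    unfold ev
    refine finsum_eq_of_bijective (Subgroup.topEquiv (G := G)).symm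
      (Subgroup.topEquiv (G := G)).symm.bijective ?_
    intro x
    rfl
  · rw [← hsum]
    refine finsum_eq_of_bijective (Subgroup.topEquiv (G := G)).symm
      (Subgroup.topEquiv (G := G)).symm.bijective ?_
    intro x
    rfl

/-- `P` of order `ℓ ^ (m + 1)`, the element `z` of order `ℓ` -/
theorem prj_bY (hwgt : WgtStmt) (hbrq : BrqStmt) {ℓ : ℕ} [Fact ℓ.Prime] {F : Type} [Field F]
    (hF : GoodF ℓ F) {G : Type} [Group G] [Finite G] {m : ℕ} {Q : Subgroup G} {z : G}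
    (hQ : IsCyclic Q) (hc : Nat.card Q = ℓ ^ (m + 1)) (hz : z ∈ Q) (ho : orderOf z = ℓ)
    (hQN : Q ≤ NY z) {e : G → F} (h : PrjB (⊤ : Subgroup G) Q e) :
    PrjB (NY z) Q (bY z e) := by
  obtain ⟨c, a, hcw, _, hap, hea⟩ := h
  obtain ⟨c₁, hc₁⟩ := (hwgt F G (⊤ ⊓ NY z) Q (le_inf le_top hQN)).1
  have hea' : e = fun x => ∑ᶠ g : G, c g * a (g⁻¹ * x * g) := funext hea
  have h1 := hbrq ℓ F hF G m ⊤ Q z le_top hQ hc hz ho c c₁ a hcw hc₁ hap
  rw [← hea'] at h1
  rw [top_inf_eq] at hc₁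
  refine ⟨c₁, bY z a, hc₁, ?_, ?_, ?_⟩
  · have h2 : SpF (⊤ ⊓ CY z) (bY z a) := bY_sp fun x hx => absurd (Subgroup.mem_top x) hx
    intro x hx
    exact h2 x fun h => hx (CY_le_NY z h.2)
  · have h3 : CmF (Q ⊓ NY z) (bY z a) := bY_cm hap
    intro p hp x
    exact h3 p ⟨hp, hQN hp⟩ x
  · intro x
    exact congrFun h1 x

/-- STR -/
theorem str (hpsb : PsbStmt) (hpsp : PspStmt) (hdfx : DfxStmt) (hdzb : DzbStmt) (hncq : NcqStmt)
    (hloc : LocStmt) (hnpj : NpjStmt) (hbrq : BrqStmt) (huni : UniStmt) (hlf1 : Lf1Stmt)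
    (hlf3 : Lf3Stmt) (hwgt : WgtStmt) : StrStmt := by
  intro ℓ hℓ F _ hF G _ _ n
  induction n using Nat.strong_induction_on generalizing G with
  | _ n ih =>
  intro P y e hS
  have hp : 0 < ℓ := hℓ.out.pos
  have hp1 : 1 < ℓ := hℓ.out.one_lt
  obtain ⟨y₁, hy₁⟩ : ∃ y₁, y₁ = y ^ (ℓ ^ n) := ⟨_, rfl⟩
  have ho₁ : orderOf y₁ = ℓ := by
    rw [hy₁, orderOf_pow, hS.ord, pow_succ, Nat.gcd_mul_right_left,
      Nat.mul_div_cancel_left _ (pow_pos hp n)]
  have hcen : y₁ ∈ Subgroup.center G := hy₁ ▸ hS.cen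
  have hP₁ : Subgroup.zpowers y₁ ≤ P := by
    rw [Subgroup.zpowers_le, ← hS.gen, hy₁]
    exact Subgroup.pow_mem _ (Subgroup.mem_zpowers y) _
  have hnor : (Subgroup.zpowers y₁).Normal := by
    constructor
    intro x hx g
    have hx' : x ∈ Subgroup.center G := (Subgroup.zpowers_le.2 hcen) hx
    have h1 := Subgroup.mem_center_iff.1 hx' g
    rw [h1, mul_inv_cancel_right]
    exact hx
  obtain ⟨p, hpdef⟩ : ∃ p : G →* G ⧸ Subgroup.zpowers y₁, p = QuotientGroup.mk' _ := ⟨_, rfl⟩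
  have hps : Function.Surjective p := hpdef ▸ QuotientGroup.mk'_surjective _
  have hpk : p.ker = Subgroup.zpowers y₁ := hpdef ▸ QuotientGroup.ker_mk' _
  have hPp : IsPGroup ℓ P := by
    rw [← hS.gen]
    exact IsPGroup.of_card (n := n + 1) (by rw [Nat.card_zpowers, hS.ord])
  have hPc : IsCyclic P := by
    rw [← hS.gen]
    infer_instance
  have hcardP : Nat.card P = ℓ ^ (n + 1) := by rw [← hS.gen, Nat.card_zpowers, hS.ord]
  have hcard' : Nat.card (P.map p) = ℓ ^ n := by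
    have h1 : p.ker.relIndex P = Nat.card (P.map p) := Subgroup.relIndex_ker P p
    have h2 := Subgroup.relIndex_mul_relIndex ⊥ p.ker P bot_le (by rw [hpk]; exact hP₁)
    rw [Subgroup.relIndex_bot_left, Subgroup.relIndex_bot_left, h1, hpk, Nat.card_zpowers, ho₁,
      hcardP, pow_succ, mul_comm] at h2
    exact Nat.eq_of_mul_eq_mul_right hp h2
  have key : ∃ (q₃ : ℕ) (w' i' : G ⧸ Subgroup.zpowers y₁ → F), q₃ ≤ ℓ ^ n ∧
      UMF (⊤ : Subgroup (G ⧸ Subgroup.zpowers y₁)) (H75.push p e) w' i' q₃ := by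
    have hb' := hpsb ℓ F hF G _ p hps y₁ ho₁ hcen hpk e hS.blk
    have hpr' := hpsp F G _ p hps P (by rw [hpk]; exact hP₁) e hS.prj
    have hPp' : IsPGroup ℓ (P.map p) := hPp.map p
    have hPc' : IsCyclic (P.map p) := by
      have : IsCyclic P := hPc
      exact isCyclic_of_surjective (p.subgroupMap P) (p.subgroupMap_surjective P)
    obtain ⟨Q, hQP, hQprj, hQbr⟩ := hdfx ℓ F hF _ (P.map p) hPp' hPc' (H75.push p e) hb'.1 hb'.2.1
      hpr'
    by_cases hQ : Q = ⊥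
    · rw [hQ] at hQprj
      obtain ⟨i, hi⟩ := hdzb ℓ F hF _ _ hb' hQprj
      exact ⟨1, 0, i, Nat.one_le_pow _ _ hp, hi⟩
    · have hQp : IsPGroup ℓ Q := hPp'.to_le hQP
      have hQc : IsCyclic Q := by
        have : IsCyclic (P.map p) := hPc'
        exact isCyclic_of_injective (Subgroup.inclusion hQP) (Subgroup.inclusion_injective hQP)
      obtain ⟨m', hm'⟩ := IsPGroup.iff_card.1 hQp
      have hm0 : m' ≠ 0 := by
        rintro rfl
        rw [pow_zero] at hm'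
        exact hQ ((Subgroup.card_eq_one).1 hm')
      obtain ⟨m, rfl⟩ := Nat.exists_eq_succ_of_ne_zero hm0
      have hmn : m + 1 ≤ n := by
        have h1 : Nat.card Q ∣ Nat.card (P.map p) := Subgroup.card_dvd_of_le hQP
        rw [hm', hcard'] at h1
        exact (Nat.pow_dvd_pow_iff_le_right hp1).1 h1
      obtain ⟨g₀, hg₀⟩ := hQc.exists_generator
      have hzQ : Subgroup.zpowers (g₀ : G ⧸ Subgroup.zpowers y₁) = Q := by
        apply le_antisymm
        · rw [Subgroup.zpowers_le]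
          exact g₀.2
        · intro x hx
          obtain ⟨k, hk⟩ := Subgroup.mem_zpowers_iff.1 (hg₀ ⟨x, hx⟩)
          rw [Subgroup.mem_zpowers_iff]
          refine ⟨k, ?_⟩
          have := congrArg Subtype.val hk
          simpa using this
      obtain ⟨z, hz⟩ : ∃ z, z = (g₀ : G ⧸ Subgroup.zpowers y₁) := ⟨_, rfl⟩
      rw [← hz] at hzQ
      have hoz : orderOf z = ℓ ^ (m + 1) := by rw [← Nat.card_zpowers, hzQ, hm']
      obtain ⟨z₁, hz₁⟩ : ∃ z₁, z₁ = z ^ (ℓ ^ m) := ⟨_, rfl⟩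
      have hoz₁ : orderOf z₁ = ℓ := by
        rw [hz₁, orderOf_pow, hoz, pow_succ, Nat.gcd_mul_right_left,
          Nat.mul_div_cancel_left _ (pow_pos hp m)]
      have hz₁Q : z₁ ∈ Q := by
        rw [hz₁, ← hzQ]
        exact Subgroup.pow_mem _ (Subgroup.mem_zpowers z) _
      have hNC : NY z₁ ≤ CY z₁ :=
        hncq ℓ G _ p hps y₁ ho₁ hcen hpk P hPp hPc (hP₁ (Subgroup.mem_zpowers y₁)) z₁
          (hQP hz₁Q) hoz₁
      have hQC : Q ≤ CY z₁ := by
        intro x hx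
        rw [← hzQ] at hx
        refine Subgroup.mem_centralizer_iff.2 fun t ht => ?_
        have ht' : t ∈ Subgroup.zpowers z := by
          rw [hzQ]
          exact (Subgroup.zpowers_le.2 hz₁Q) ht
        obtain ⟨i, rfl⟩ := Subgroup.mem_zpowers_iff.1 hx
        obtain ⟨j, rfl⟩ := Subgroup.mem_zpowers_iff.1 ht'
        rw [← zpow_add, ← zpow_add, add_comm]
      have hprjN := prj_bY hwgt hbrq hF hQc hm' hz₁Q hoz₁ (hQC.trans (CY_le_NY z₁)) hQprj
      have hCN : CY z₁ = NY z₁ := le_antisymm (CY_le_NY z₁) hNC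
      have hprjC : PrjB (CY z₁) Q (bY z₁ (H75.push p e)) := by
        rw [hCN]
        exact hprjN
      have hsp : SpF (CY z₁) (bY z₁ (H75.push p e)) := by
        have h2 : SpF (⊤ ⊓ CY z₁) (bY z₁ (H75.push p e)) :=
          bY_sp fun x hx => absurd (Subgroup.mem_top x) hx
        rwa [top_inf_eq] at h2
      have hbrQ : br Q (bY z₁ (H75.push p e)) = br Q (H75.push p e) := by
        classical
        funext x
        unfold br bY br
        by_cases hx : x ∈ Subgroup.centralizer (Q : Set (G ⧸ Subgroup.zpowers y₁))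
        · rw [if_pos hx, if_pos hx, if_pos]
          refine Subgroup.mem_centralizer_iff.2 fun t ht => ?_
          exact Subgroup.mem_centralizer_iff.1 hx t ((Subgroup.zpowers_le.2 hz₁Q) ht)
        · rw [if_neg hx, if_neg hx]
      have hbr1 : br Q (bY z₁ (H75.push p e)) ≠ 0 := by
        rw [hbrQ]
        exact hQbr
      have hne : bY z₁ (H75.push p e) ≠ 0 := by
        intro h0
        apply hbr1
        rw [h0]
        classical
        funext x
        unfold br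
        split_ifs <;> rfl
      have hblk₁ := hloc ℓ F hF _ m Q z₁ hQc hm' hz₁Q hoz₁ hNC _ hb' hprjN hne
      have hzC : z ∈ CY z₁ := hQC (hzQ ▸ Subgroup.mem_zpowers z)
      have hst := sts_restr hQC hzQ hoz hz₁.symm (le_refl (CY z₁)) hsp hblk₁ hprjC hbr1 hzC
      obtain ⟨w, i, hu, hpw⟩ := ih m (by omega) _ _ _ _ hst
      obtain ⟨hu', hpw'⟩ := str_restr hz₁.symm hsp hzC hu hpw
      have htop : (⊤ : Subgroup (G ⧸ Subgroup.zpowers y₁)) ⊓ CY z₁ = CY z₁ := top_inf_eq _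
      have htopN : (⊤ : Subgroup (G ⧸ Subgroup.zpowers y₁)) ⊓ NY z₁ = NY z₁ := top_inf_eq _
      have hd2 : D2S ℓ m (⊤ : Subgroup (G ⧸ Subgroup.zpowers y₁)) Q z₁ (H75.push p e)
          (extF (CY z₁) w) := by
        refine ⟨inferInstance, hQc, hm', le_top, hz₁Q, hoz₁, hb'.1,
          fun x hx => absurd (Subgroup.mem_top x) hx, top_sup_eq _, hQprj, ?_, ?_, ?_, hpw', ?_⟩
        · rw [htopN]
          exact hprjN
        · exact npj_top hnpj hF hb' hQp hQ hQbr
        · rw [htop]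
          exact umf_ums hu'
        · intro x hx
          refine ⟨bY z₁ (H75.push p e), ?_, ?_, ?_⟩
          · rw [htop]
            exact hsp
          · rw [htop]
            exact hu'.cb
          · rw [ums_wb (umf_ums hu')]
            funext g
            have h3 := hu'.cw x⁻¹ (inv_mem (hNC hx)) g
            rwa [inv_inv] at h3
      obtain ⟨z', i', hz'⟩ := huni ℓ F hF _ m Q z₁ (H75.push p e) _ _
        ⟨hd2, hb', hNC, hu'⟩
      exact ⟨ℓ ^ (m + 1), z', i', Nat.pow_le_pow_right hp hmn, hz'⟩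
  obtain ⟨q₃, w', i', hq₃, hu⟩ := key
  obtain ⟨i, hi⟩ := hlf1 ℓ F hF G _ p hps y₁ ho₁ hcen hpk e hS.blk.1 w' i' q₃ hu
  have hd : ℓ * q₃ ≤ ℓ ^ (n + 1) := by
    rw [pow_succ, mul_comm]
    exact Nat.mul_le_mul_right ℓ hq₃
  obtain ⟨w, hw, hpw⟩ := hlf3 ℓ F hF G n P y e hS i _ hd hi
  exact ⟨w, i, hw, hpw⟩

end Pool.Agent.PP.CD2.H56
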